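import Mathlib

namespace Pool.Agent.Results.MP_69ced1_co.Disproof

variable {V : Type}

def IsTotalDom (G : SimpleGraph V) (S : Finset V) : Prop := ∀ v, ∃ u ∈ S, G.Adj v u

/-- The total domination number. -/
noncomputable def gammaT (G : SimpleGraph V) : ℕ := sInf {k | ∃ S, IsTotalDom G S ∧ S.card = k}

def NoIsolated (G : SimpleGraph V) : Prop := ∀ v, ∃ u, G.Adj v u

/-- The bipartite graph of a relation between rows and columns. -/
def bip {s : ℕ} (R : Fin s → Fin s → Prop) : SimpleGraph (Fin s ⊕ Fin s) where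
  Adj x y := (∃ i j, x = Sum.inl i ∧ y = Sum.inr j ∧ R i j) ∨
    (∃ i j, y = Sum.inl i ∧ x = Sum.inr j ∧ R i j)
  symm := ⟨fun _ _ h => h.symm⟩
  loopless := ⟨by rintro x (⟨i, j, h1, h2, _⟩ | ⟨i, j, h1, h2, _⟩) <;> simp [h1] at h2⟩

/-- Row `i < m` has a single one, in column `i`; row `m + j` has a single zero, in column `j`. -/
def R (m : ℕ) (i j : Fin (2 * m)) : Prop :=
  (i.val < m ∧ j.val = i.val) ∨ (m ≤ i.val ∧ j.val + m ≠ i.val)

lemma adj_lr {s : ℕ} (Q : Fin s → Fin s → Prop) (i j : Fin s) :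
    (bip Q).Adj (Sum.inl i) (Sum.inr j) ↔ Q i j := by simp [bip]

lemma adj_rl {s : ℕ} (Q : Fin s → Fin s → Prop) (i j : Fin s) :
    (bip Q).Adj (Sum.inr j) (Sum.inl i) ↔ Q i j := by simp [bip]

lemma adj_ll {s : ℕ} (Q : Fin s → Fin s → Prop) (i j : Fin s) :
    ¬ (bip Q).Adj (Sum.inl j) (Sum.inl i) := by simp [bip]

lemma adj_rr {s : ℕ} (Q : Fin s → Fin s → Prop) (i j : Fin s) :
    ¬ (bip Q).Adj (Sum.inr j) (Sum.inr i) := by simp [bip]

lemma noIso {s : ℕ} (Q : Fin s → Fin s → Prop) (h1 : ∀ i, ∃ j, Q i j) (h2 : ∀ j, ∃ i, Q i j) :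
    NoIsolated (bip Q) := by
  rintro (i | j)
  · obtain ⟨j, h⟩ := h1 i
    exact ⟨_, (adj_lr Q i j).2 h⟩
  · obtain ⟨i, h⟩ := h2 j
    exact ⟨_, (adj_rl Q i j).2 h⟩

lemma lower {m : ℕ} (Q : Fin (2 * m) → Fin (2 * m) → Prop) (hN : NoIsolated (bip Q))
    (h1 : ∀ c : Fin (2 * m), c.val < m → ∃ i, ∀ j, Q i j → j = c)
    (h2 : ∀ i, ∃ j, ¬ Q i j) (hm : 0 < m) : m + 2 ≤ gammaT (bip Q) := by
  classical
  obtain ⟨S, hS, hc⟩ := Nat.sInf_mem (s := {k | ∃ S, IsTotalDom (bip Q) S ∧ S.card = k})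
    ⟨_, Finset.univ, fun v => by simpa using hN v, rfl⟩
  have row : ∀ j, ∃ i, Sum.inl i ∈ S ∧ Q i j := by
    intro j
    obtain ⟨i | i, hi, h⟩ := hS (Sum.inr j)
    · exact ⟨i, hi, (adj_rl Q i j).1 h⟩
    · exact absurd h (adj_rr Q _ _)
  obtain ⟨a, ha, _⟩ := row ⟨0, by omega⟩
  obtain ⟨j, hj⟩ := h2 a
  obtain ⟨b, hb, hbj⟩ := row j
  have hab : a ≠ b := fun e => hj (e ▸ hbj)
  let T : Finset (Fin (2 * m) ⊕ Fin (2 * m)) :=
    Finset.univ.image (fun c : Fin m => Sum.inr ⟨c.val, by omega⟩)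
  have hT : T.card = m := by
    rw [Finset.card_image_of_injective]
    · simp
    · intro x y h
      simpa [Fin.ext_iff] using h
  have hsub : insert (Sum.inl a) (insert (Sum.inl b) T) ⊆ S := by
    intro x hx
    simp only [Finset.mem_insert, T, Finset.mem_image, Finset.mem_univ, true_and] at hx
    rcases hx with rfl | rfl | ⟨c, rfl⟩
    · exact ha
    · exact hb
    · obtain ⟨i, hi⟩ := h1 ⟨c.val, by omega⟩ c.isLt
      obtain ⟨j | j, hj, h⟩ := hS (Sum.inl i)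
      · exact absurd h (adj_ll Q _ _)
      · rw [← hi j ((adj_lr Q i j).1 h)]
        exact hj
  have := Finset.card_le_card hsub
  rw [Finset.card_insert_of_notMem (by simp [T, hab]),
    Finset.card_insert_of_notMem (by simp [T]), hT, hc] at this
  exact this

theorem result (m : ℕ) (hm : 2 ≤ m) :
    ∃ G₁ G₂ : SimpleGraph (Fin (2 * m) ⊕ Fin (2 * m)),
      Disjoint G₁ G₂ ∧ G₁ ⊔ G₂ = completeBipartiteGraph (Fin (2 * m)) (Fin (2 * m)) ∧
      NoIsolated G₁ ∧ NoIsolated G₂ ∧ (m + 2) ^ 2 ≤ gammaT G₁ * gammaT G₂ ∧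
      (12 ≤ m → 8 * (2 * m) < gammaT G₁ * gammaT G₂) := by
  have p1 : ∀ i, ∃ j, R m i j := fun i => by
    refine ⟨i, ?_⟩
    unfold R; omega
  have p2 : ∀ i, ∃ j, ¬ R m i j := fun i => by
    by_cases h : i.val < m
    · exact ⟨⟨m, by omega⟩, by unfold R; simp only; omega⟩
    · exact ⟨⟨i.val - m, by omega⟩, by unfold R; simp only; omega⟩
  have p3 : ∀ j, ∃ i, R m i j := fun j => by
    refine ⟨j, ?_⟩
    unfold R; omega
  have p4 : ∀ j, ∃ i, ¬ R m i j := fun j => by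
    by_cases h : j.val = 0
    · exact ⟨⟨1, by omega⟩, by unfold R; simp only; omega⟩
    · exact ⟨⟨0, by omega⟩, by unfold R; simp only; omega⟩
  have n1 := noIso (R m) p1 p3
  have n2 := noIso (fun i j => ¬ R m i j) p2 p4
  have l1 := lower (R m) n1 (fun c hc => ⟨c, fun j h => by
    unfold R at h; apply Fin.ext; omega⟩) p2 (by omega)
  have l2 := lower (fun i j => ¬ R m i j) n2 (fun c hc => ⟨⟨c.val + m, by omega⟩, fun j h => by
    unfold R at h; apply Fin.ext; simp only at h; omega⟩)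
    (fun i => by simpa using p1 i) (by omega)
  have hp : (m + 2) ^ 2 ≤ gammaT (bip (R m)) * gammaT (bip fun i j => ¬ R m i j) := by
    rw [sq]; exact Nat.mul_le_mul l1 l2
  refine ⟨bip (R m), bip (fun i j => ¬ R m i j), ?_, ?_, n1, n2, hp, fun h => by nlinarith⟩
  · rw [SimpleGraph.disjoint_left]
    rintro (x | x) (y | y) h1 h2
    · exact adj_ll _ _ _ h1
    · exact (adj_lr _ _ _).1 h2 ((adj_lr _ _ _).1 h1)
    · exact (adj_rl _ _ _).1 h2 ((adj_rl _ _ _).1 h1)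
    · exact adj_rr _ _ _ h1
  · ext (x | x) (y | y)
    · simp [adj_ll]
    · simp [adj_lr, em]
    · simp [adj_rl, em]
    · simp [adj_rr]

end Pool.Agent.Results.MP_69ced1_co.Disproof
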